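import Pool.Agent.N456.CN.Final

/-!
Cantor series distribution normality never coincides with continued fraction normality.
-/

set_option autoImplicit false

open Filter Set MeasureTheory
open scoped Topology ENNReal

namespace Pool.Agent.Results.MP_2274bf_nt.NoBasicSequence

/-- a basic sequence `Q = (q_n)`, `Q i = q_{i+1}` -/
def IsBasic (Q : ℕ → ℕ) : Prop := ∀ n, 2 ≤ Q n

/-- `T_{Q,n}(x) = q_1 q_2 ... q_n x` modulo one -/
noncomputable def T (Q : ℕ → ℕ) (n : ℕ) (x : ℝ) : ℝ :=
  Int.fract ((∏ i ∈ Finset.range n, (Q i : ℝ)) * x)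

/-- uniform distribution of a sequence of `[0,1)` with respect to Lebesgue measure -/
def UnifDist (u : ℕ → ℝ) : Prop := ∀ a b : ℝ, 0 ≤ a → a < b → b ≤ 1 →
  Tendsto (fun N : ℕ => (((Finset.range N).filter (fun n => a ≤ u n ∧ u n < b)).card : ℝ) / N) atTop
    (𝓝 (b - a))

/-- the set of `Q`-distribution normal numbers -/
def DN (Q : ℕ → ℕ) : Set ℝ := {x | UnifDist (fun n => T Q n x)}

/-- the Gauss map -/
noncomputable def G (y : ℝ) : ℝ := Int.fract (1 / y)

/-- the continued fraction digits, `digit y n = a_{n+1}` for `y = [0; a_1, a_2, ...]` -/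
noncomputable def digit (y : ℝ) (n : ℕ) : ℤ := ⌊1 / (G^[n] y)⌋

/-- the numbers of `(0,1)` whose continued fraction begins with the block `c` -/
def I (c : List ℕ) : Set ℝ := {y | 0 < y ∧ y < 1 ∧ ∀ i : Fin c.length, digit y i = (c.get i : ℤ)}

/-- the Gauss measure `(1 / log 2) ∫_A dy / (1 + y)` -/
noncomputable def gaussMeasure (A : Set ℝ) : ℝ := 1 / Real.log 2 * ∫ y in A, 1 / (1 + y)

/-- the set of numbers which are normal with respect to the regular continued fraction expansion -/
def NCF : Set ℝ := {x | Irrational (Int.fract x) ∧ ∀ c : List ℕ, c ≠ [] → (∀ d ∈ c, 1 ≤ d) →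
  Tendsto (fun N : ℕ => (((Finset.range N).filter
    (fun n => ∀ i : Fin c.length, digit (Int.fract x) (n + i) = (c.get i : ℤ))).card : ℝ) / N) atTop
    (𝓝 (gaussMeasure (I c)))}

open Pool.Agent.W811.Stu Pool.Agent.W174.Stu Pool.Agent.R357.CF Pool.Agent.N456.CN

lemma G_eq : G = gauss := by
  funext y
  unfold G gauss
  rw [one_div]

lemma I_eq (c : List ℕ) : I c = Cyl c := by
  ext y
  unfold I Cyl
  simp only [Set.mem_ofPred_eq, mem_Ioo]
  have key : 0 < y → y < 1 → ∀ i : ℕ, digit y i = ((dig y i : ℕ) : ℤ) := by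
    intro h0 h1 i
    unfold digit dig
    rw [G_eq, one_div]
    have h2 : 0 ≤ (gauss^[i] y) := by
      cases i with
      | zero => exact h0.le
      | succ i =>
        rw [Function.iterate_succ_apply']
        exact Int.fract_nonneg _
    exact (Int.natCast_floor_eq_floor (inv_nonneg.2 h2)).symm
  constructor
  · rintro ⟨h0, h1, h2⟩
    refine ⟨⟨h0, h1⟩, fun i => ?_⟩
    have := h2 i
    rw [key h0 h1] at this
    exact_mod_cast this
  · rintro ⟨⟨h0, h1⟩, h2⟩
    refine ⟨h0, h1, fun i => ?_⟩
    rw [key h0 h1, h2 i]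

lemma gm_eq (c : List ℕ) : gaussMeasure (I c) = mu c := by
  rw [I_eq]
  have hm := measurable_Cyl c
  have hsub : Cyl c ∩ Ico 0 1 = Cyl c := inter_eq_left.2 (fun y hy => Ioo_subset_Ico_self hy.1)
  unfold gaussMeasure mu
  rw [gam_apply hm, ENNReal.toReal_mul, ENNReal.toReal_inv,
    ENNReal.toReal_ofReal (Real.log_nonneg (by norm_num)), one_div]
  congr 1
  unfold gm
  rw [hsub, integral_eq_lintegral_of_nonneg_ae]
  · refine (ae_restrict_mem hm).mono fun y hy => ?_
    have := hy.1.1
    simp only [Pi.zero_apply]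
    positivity
  · exact (Measurable.aestronglyMeasurable (by fun_prop))

lemma digit_X {s : ℕ → ℕ} (hs : ∀ n, 1 ≤ s n) (n : ℕ) : digit (X s) n = (s n : ℤ) := by
  unfold digit
  rw [G_eq, gauss_iter_X hs, X_eq (sh_good hs n), one_div_one_div]
  have hm := X_mem (sh_good (sh_good hs n) 1)
  have e : sh s n 0 = s n := by simp [sh]
  rw [e, Int.floor_eq_iff]
  push_cast
  exact ⟨by linarith [hm.1], by linarith [hm.2]⟩

/-- **No basic sequence `Q` satisfies `DN(Q) = N_CF`**: for every basic sequence there is even a number which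
is normal with respect to the continued fraction expansion and not `Q`-distribution normal. -/
theorem result : ∀ Q : ℕ → ℕ, IsBasic Q → (∃ x, x ∈ NCF ∧ x ∉ DN Q) ∧ DN Q ≠ NCF := by
  intro Q hQ
  have key : ∃ x, x ∈ NCF ∧ x ∉ DN Q := by
    obtain ⟨s, hs, hfreq, hrun⟩ := construct hQ
    have hX := X_mem hs
    have hfr : Int.fract (X s) = X s := Int.fract_eq_self.2 ⟨hX.1.le, hX.2⟩
    refine ⟨X s, ⟨by rw [hfr]; exact X_irr hs, ?_⟩, ?_⟩
    · intro c hc hcg
      rw [hfr, gm_eq]
      refine (hfreq c hc hcg).congr fun N => ?_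
      congr 2
      unfold cs
      congr 1
      apply Finset.filter_congr
      intro n _
      constructor
      · intro h i
        rw [digit_X hs, h i]
      · intro h i
        have := h i
        rw [digit_X hs] at this
        exact_mod_cast this
    · intro hdn
      have h1 := hdn (1/4) (3/4) (by norm_num) (by norm_num) (by norm_num)
      rw [Metric.tendsto_atTop] at h1
      obtain ⟨N0, hN0⟩ := h1 (1/10) (by norm_num)
      obtain ⟨N, hN1, hN2, hN3⟩ := hrun N0
      have h2 := hN0 (3 * N) (by omega)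
      rw [Real.dist_eq, abs_lt] at h2
      have h3 : (((Finset.range (3 * N)).filter
          (fun n => (1/4:ℝ) ≤ T Q n (X s) ∧ T Q n (X s) < 3/4)).card : ℝ) ≤ N := by
        have hsub : (Finset.range (3 * N)).filter
          (fun n => (1/4:ℝ) ≤ T Q n (X s) ∧ T Q n (X s) < 3/4) ⊆ Finset.range N := by
          intro n hn
          rw [Finset.mem_filter, Finset.mem_range] at hn
          rw [Finset.mem_range]
          by_contra hc
          rw [not_lt] at hc
          apply hN3 n hc hn.1.le
          have e : T Q n (X s) = Int.fract ((PQ Q n : ℝ) * X s) := by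
            unfold T PQ
            push_cast
            rfl
          rw [← e]
          exact hn.2
        have := Finset.card_le_card hsub
        rw [Finset.card_range] at this
        exact_mod_cast this
      have hNpos : (0:ℝ) < N := by exact_mod_cast hN2
      have h4 : (((Finset.range (3 * N)).filter
          (fun n => (1/4:ℝ) ≤ T Q n (X s) ∧ T Q n (X s) < 3/4)).card : ℝ) / ((3 * N : ℕ) : ℝ) ≤ 1 / 3 := by
        rw [div_le_div_iff₀ (by push_cast; positivity) (by norm_num)]
        push_cast
        linarith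
      linarith [h2.1]
  refine ⟨key, fun h => ?_⟩
  obtain ⟨x, h1, h2⟩ := key
  rw [h] at h2
  exact h2 h1

end Pool.Agent.Results.MP_2274bf_nt.NoBasicSequence
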